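import Pool.Agent.W5h49.EC.Near
import Pool.Agent.U987.BI.Est

/-!
# The averaged differentials of a symplectomorphism with small differentials: a lower bound
-/

set_option autoImplicit false
set_option linter.unusedSectionVars false

open Set Filter Topology Metric Function MeasureTheory
open scoped ContDiff

noncomputable section

namespace Pool.Agent.U987.SY

open Pool.Agent.W71.EC Pool.Agent.W5h49.EC Pool.Agent.Y522
open Pool.Agent.U211.BL (Ker rf rfE rf_norm rf_rf rf_inner rf_add rf_smul_w compactSupport_of)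

variable {n : ℕ}

/-- the coordinates, a linear isometry for the Euclidean norms -/
def LE (n : ℕ) : R2 n ≃ₗ[ℝ] E (n + n) where
  toFun v := WithLp.toLp 2 (Fin.append v.1 v.2)
  invFun s := (fun i => s (Fin.castAdd n i), fun i => s (Fin.natAdd n i))
  map_add' u v := by
    ext i
    show Fin.append (u.1 + v.1) (u.2 + v.2) i = Fin.append u.1 u.2 i + Fin.append v.1 v.2 i
    refine Fin.addCases (fun j => ?_) (fun j => ?_) i
    · rw [Fin.append_left, Fin.append_left, Fin.append_left]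
      rfl
    · rw [Fin.append_right, Fin.append_right, Fin.append_right]
      rfl
  map_smul' c v := by
    ext i
    show Fin.append (c • v.1) (c • v.2) i = c * Fin.append v.1 v.2 i
    refine Fin.addCases (fun j => ?_) (fun j => ?_) i
    · rw [Fin.append_left, Fin.append_left]
      rfl
    · rw [Fin.append_right, Fin.append_right]
      rfl
  left_inv v := by
    apply Prod.ext
    · funext i
      exact Fin.append_left v.1 v.2 i
    · funext i
      exact Fin.append_right v.1 v.2 i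
  right_inv s := by
    ext i
    show Fin.append (fun i => s (Fin.castAdd n i)) (fun i => s (Fin.natAdd n i)) i = s i
    refine Fin.addCases (fun j => ?_) (fun j => ?_) i
    · rw [Fin.append_left]
    · rw [Fin.append_right]

/-- the coordinates -/
def L (n : ℕ) : R2 n ≃L[ℝ] E (n + n) := (LE n).toContinuousLinearEquiv

theorem L_left (v : R2 n) (i : Fin n) : L n v (Fin.castAdd n i) = v.1 i :=
  Fin.append_left v.1 v.2 i

theorem L_right (v : R2 n) (i : Fin n) : L n v (Fin.natAdd n i) = v.2 i :=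
  Fin.append_right v.1 v.2 i

theorem inner_L (u v : R2 n) : (inner ℝ (L n u) (L n v) : ℝ) = Near.ip u v := by
  rw [PiLp.inner_apply, Fin.sum_univ_add]
  simp only [L_left, L_right]
  unfold Near.ip
  rw [Finset.sum_add_distrib]
  simp only [RCLike.inner_apply, conj_trivial]
  congr 1 <;> exact Finset.sum_congr rfl fun i _ => by ring

theorem norm_L (v : R2 n) : ‖L n v‖ ^ 2 = nsq v := by
  rw [← real_inner_self_eq_norm_sq, inner_L, Near.ip_self]

theorem sup_le (v : R2 n) (h : ‖L n v‖ < 1) : ‖v‖ < 1 := by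
  have h1 : nsq v < 1 := by
    rw [← norm_L]
    have := norm_nonneg (L n v)
    nlinarith
  have h2 : ∀ i, v.1 i ^ 2 + v.2 i ^ 2 ≤ nsq v := fun i =>
    Finset.single_le_sum (f := fun i => v.1 i ^ 2 + v.2 i ^ 2) (fun j _ => by positivity)
      (Finset.mem_univ i)
  rw [Prod.norm_def, max_lt_iff]
  constructor
  · rw [pi_norm_lt_iff one_pos]
    intro i
    rw [Real.norm_eq_abs, ← sq_lt_one_iff_abs_lt_one]
    nlinarith [h2 i, sq_nonneg (v.2 i)]
  · rw [pi_norm_lt_iff one_pos]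
    intro i
    rw [Real.norm_eq_abs, ← sq_lt_one_iff_abs_lt_one]
    nlinarith [h2 i, sq_nonneg (v.1 i)]

/-- the volume in the two coordinates -/
theorem exists_scale (n : ℕ) : ∃ c : ℝ, 0 < c ∧
    ∀ f : E (n + n) → ℝ, ∫ y : R2 n, f (L n y) = c * ∫ s, f s := by
  have := Near.haarR2 n
  have : (Measure.map (L n) (volume : Measure (R2 n))).IsAddHaarMeasure :=
    (L n).isAddHaarMeasure_map volume
  obtain ⟨c, hcd⟩ : ∃ c, c = Measure.addHaarScalarFactor
    (Measure.map (L n) (volume : Measure (R2 n))) (volume : Measure (E (n + n))) := ⟨_, rfl⟩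
  have hc : Measure.map (L n) (volume : Measure (R2 n)) = c • (volume : Measure (E (n + n))) := by
    rw [hcd]
    exact Measure.isAddLeftInvariant_eq_smul _ _
  have hc0 : 0 < c := by
    rw [hcd]
    exact Measure.addHaarScalarFactor_pos_of_isAddHaarMeasure _ _
  refine ⟨c, by exact_mod_cast hc0, fun f => ?_⟩
  have h1 : ∫ y : R2 n, f (L n y) = ∫ s, f s ∂(Measure.map (L n) (volume : Measure (R2 n))) :=
    ((L n).toHomeomorph.measurableEmbedding.integral_map f).symm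
  rw [h1, hc, integral_smul_nnreal_measure]
  rfl

variable {r₀ : ℝ}

/-- the mollifier on `R2 n` -/
def et (K : Ker (n + n) r₀) (c : ℝ) (y : R2 n) : ℝ := c⁻¹ * K.k (L n y)

theorem et_moll (K : Ker (n + n) r₀) {c : ℝ} (hc : 0 < c)
    (hcs : ∀ f : E (n + n) → ℝ, ∫ y : R2 n, f (L n y) = c * ∫ s, f s) : Moll (et K c) where
  smooth := contDiff_const.mul (K.smooth.comp (L n).contDiff)
  cpt := by
    have h1 : HasCompactSupport K.k := compactSupport_of fun s hs => K.zero s hs.le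
    exact (h1.comp_homeomorph (L n).toHomeomorph).mul_left
  nonneg y := mul_nonneg (inv_nonneg.2 hc.le) (K.nonneg _)
  integral := by
    unfold et
    rw [integral_const_mul, hcs, K.int, mul_one, inv_mul_cancel₀ hc.ne']

theorem et_supp (K : Ker (n + n) r₀) (c : ℝ) :
    Function.support (et K c) ⊆ Metric.ball (0 : R2 n) 1 := by
  intro y hy
  rw [mem_ball_zero_iff]
  apply sup_le
  apply K.lt
  intro h
  apply hy
  unfold et
  rw [h, mul_zero]

theorem et_der (K : Ker (n + n) r₀) (c : ℝ) (y v : R2 n) :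
    fderiv ℝ (et K c) y v = -(c⁻¹ * (K.g (L n y) * inner ℝ (L n y) (L n v))) := by
  have h1 : HasFDerivAt (et K c) (c⁻¹ • (fderiv ℝ K.k (L n y)).comp (L n : R2 n →L[ℝ] E (n + n))) y := by
    have h2 : HasFDerivAt K.k (fderiv ℝ K.k (L n y)) (L n y) :=
      (K.smooth.differentiable (by simp) _).hasFDerivAt
    exact (h2.comp y (L n).hasFDerivAt).const_mul c⁻¹
  rw [h1.fderiv]
  simp only [ContinuousLinearMap.smul_apply, ContinuousLinearMap.comp_apply, smul_eq_mul]
  show c⁻¹ * fderiv ℝ K.k (L n y) (L n v) = _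
  rw [K.der]
  ring

/-- integration by parts -/
theorem ip_eq (K : Ker (n + n) r₀) {c : ℝ} (hc : 0 < c)
    (hcs : ∀ f : E (n + n) → ℝ, ∫ y : R2 n, f (L n y) = c * ∫ s, f s) (φ : SympCt n) (r : ℝ)
    (x v b : R2 n) :
    r * Near.ip (MD (et K c) φ r x v) b = ∫ s, K.g s * (inner ℝ s (L n v) *
      inner ℝ (L n (φ.toEquiv ((L n).symm (L n x + r • s)))) (L n b)) := by
  have hη := et_moll K hc hcs
  obtain ⟨g, hg⟩ : ∃ g : R2 n → ℝ, g = fun y => Near.ipL b (φ.toEquiv (x - r • y)) := ⟨_, rfl⟩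
  have hgs : ContDiff ℝ ∞ g := by
    rw [hg]
    exact (Near.ipL b).contDiff.comp (φ.smooth.comp (by fun_prop))
  have hgd : ∀ y, fderiv ℝ g y v = -(r * Near.ip (D φ (x - r • y) v) b) := by
    intro y
    have h2 : HasFDerivAt (fun y : R2 n => x - r • y) (-(r • ContinuousLinearMap.id ℝ (R2 n))) y := by
      have := ((hasFDerivAt_id (𝕜 := ℝ) y).const_smul r).const_sub x
      exact this
    have h1 : HasFDerivAt g ((Near.ipL b).comp ((fderiv ℝ φ.toEquiv (x - r • y)).comp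
        (-(r • ContinuousLinearMap.id ℝ (R2 n))))) y := by
      rw [hg]
      exact (Near.ipL b).hasFDerivAt.comp y
        ((Near.smooth_diff φ (x - r • y)).hasFDerivAt.comp y h2)
    rw [h1.fderiv]
    simp only [ContinuousLinearMap.comp_apply, ContinuousLinearMap.neg_apply,
      ContinuousLinearMap.smul_apply, ContinuousLinearMap.id_apply, map_neg, map_smul, smul_eq_mul]
    rfl
  have h1 := Near.parts hη v hgs
  simp only [hgd] at h1
  have h2 : ∫ y, et K c y * -(r * Near.ip (D φ (x - r • y) v) b) =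
      -(r * Near.ip (MD (et K c) φ r x v) b) := by
    rw [Near.ip_MD hη, ← integral_const_mul, ← integral_neg]
    congr 1
    funext y
    ring
  rw [h2, neg_inj] at h1
  rw [h1]
  have h3 : ∀ y, fderiv ℝ (et K c) y v * g y = (fun s : E (n + n) => -(c⁻¹ * (K.g s *
      (inner ℝ s (L n v) * inner ℝ (L n (φ.toEquiv ((L n).symm (L n x - r • s)))) (L n b)))))
      (L n y) := by
    intro y
    have h4 : (L n).symm (L n x - r • L n y) = x - r • y := by
      rw [← map_smul, ← map_sub, ContinuousLinearEquiv.symm_apply_apply]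
    simp only
    rw [h4, et_der, inner_L (φ.toEquiv (x - r • y)) b, hg]
    simp only [Near.ipL_apply]
    ring
  simp only [h3]
  rw [hcs (fun s : E (n + n) => -(c⁻¹ * (K.g s *
      (inner ℝ s (L n v) * inner ℝ (L n (φ.toEquiv ((L n).symm (L n x - r • s)))) (L n b)))))]
  rw [integral_neg, integral_const_mul]
  have h5 : ∫ s, K.g s * (inner ℝ s (L n v) *
      inner ℝ (L n (φ.toEquiv ((L n).symm (L n x + r • s)))) (L n b)) =
      -∫ s, K.g s * (inner ℝ s (L n v) *
      inner ℝ (L n (φ.toEquiv ((L n).symm (L n x - r • s)))) (L n b)) := by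
    rw [← integral_neg, ← integral_neg_eq_self]
    congr 1
    funext s
    rw [K.grad (-s) s (norm_neg s), inner_neg_left, smul_neg, ← sub_eq_add_neg]
    ring
  rw [h5]
  field_simp

theorem bilip {μ : ℝ} (hμ : 1 ≤ μ) (φ : SympCt n)
    (h : ∀ x v, nsq (D φ x v) ≤ μ ^ 2 * nsq v) (p q : E (n + n)) :
    μ⁻¹ * ‖p - q‖ ≤ ‖L n (φ.toEquiv ((L n).symm p)) - L n (φ.toEquiv ((L n).symm q))‖ ∧
    ‖L n (φ.toEquiv ((L n).symm p)) - L n (φ.toEquiv ((L n).symm q))‖ ≤
      μ ^ 2 * (μ⁻¹ * ‖p - q‖) := by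
  have h' : ∀ x v, nsq (D φ x v) ≤ (1 + (μ ^ 2 - 1)) * nsq v := by
    intro x v
    rw [add_sub_cancel]
    exact h x v
  have h1 := Near.dist_up φ h' ((L n).symm p) ((L n).symm q)
  have h2 := Near.dist_lo φ h' ((L n).symm p) ((L n).symm q)
  have e1 : nsq ((L n).symm p - (L n).symm q) = ‖p - q‖ ^ 2 := by
    rw [← map_sub, ← norm_L, ContinuousLinearEquiv.apply_symm_apply]
  have e2 : nsq (φ.toEquiv ((L n).symm p) - φ.toEquiv ((L n).symm q)) =
      ‖L n (φ.toEquiv ((L n).symm p)) - L n (φ.toEquiv ((L n).symm q))‖ ^ 2 := by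
    rw [← norm_L, map_sub]
  rw [add_sub_cancel, e1, e2, ← mul_pow] at h1 h2
  have hμ0 : 0 < μ := by linarith
  have h3 := (pow_le_pow_iff_left₀ (norm_nonneg _) (by positivity) two_ne_zero).1 h1
  have h4 := (pow_le_pow_iff_left₀ (norm_nonneg _) (by positivity) two_ne_zero).1 h2
  constructor
  · rw [inv_mul_le_iff₀ hμ0]
    exact h4
  · refine h3.trans (le_of_eq ?_)
    field_simp

/-- **The lower bound.** -/
theorem low (K : Ker (n + n) r₀) (hr0 : 0 < r₀) {c : ℝ} (hc : 0 < c)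
    (hcs : ∀ f : E (n + n) → ℝ, ∫ y : R2 n, f (L n y) = c * ∫ s, f s) (φ : SympCt n) {μ : ℝ}
    (hμ : 1 ≤ μ) (h : ∀ x v, nsq (D φ x v) ≤ μ ^ 2 * nsq v) {r : ℝ}
    (hr : 0 < r) (x v : R2 n) (hv : nsq v = 1) :
    (1 + μ ^ 4 - (μ ^ 4 - 1) * (Real.sqrt ((n + n : ℕ) : ℝ) / r₀)) / (2 * μ ^ 3) ≤
      ‖L n (MD (et K c) φ r x v)‖ := by
  have hμ0 : 0 < μ := by linarith
  have hρ1 : 1 ≤ μ ^ 2 := one_le_pow₀ hμ
  obtain ⟨G, hG⟩ : ∃ G : E (n + n) → E (n + n), G = fun s => L n (φ.toEquiv ((L n).symm s)) :=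
    ⟨_, rfl⟩
  obtain ⟨z, hz⟩ : ∃ z, z = L n x := ⟨_, rfl⟩
  obtain ⟨w, hw'⟩ : ∃ w, w = L n v := ⟨_, rfl⟩
  have hw : ‖w‖ = 1 := by
    have h1 : ‖w‖ ^ 2 = 1 := by rw [hw', norm_L, hv]
    have h2 := norm_nonneg w
    nlinarith
  have hb : ∀ p q, μ⁻¹ * ‖p - q‖ ≤ ‖G p - G q‖ ∧ ‖G p - G q‖ ≤ μ ^ 2 * (μ⁻¹ * ‖p - q‖) := by
    intro p q
    rw [hG]
    exact bilip hμ φ h p q
  have hGc : Continuous G := by
    rw [hG]
    exact (L n).continuous.comp (φ.smooth.continuous.comp (L n).symm.continuous)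
  obtain ⟨C, hC⟩ : ∃ C, C = G (z + r • w) := ⟨_, rfl⟩
  obtain ⟨F, hF⟩ : ∃ F, F = G (z + r • (-w)) := ⟨_, rfl⟩
  obtain ⟨b, hbdef⟩ : ∃ b : R2 n, b = φ.toEquiv (x + r • v) - φ.toEquiv (x + r • (-v)) := ⟨_, rfl⟩
  have hLb : L n b = C - F := by
    rw [hbdef, hC, hF, hG, hz, hw', map_sub]
    simp only [← map_neg, ← map_smul, ← map_add, ContinuousLinearEquiv.symm_apply_apply]
  have hcmp : ∀ t u : E (n + n), ‖(z + r • t) - (z + r • u)‖ = r * ‖t - u‖ := by
    intro t u
    have : (z + r • t) - (z + r • u) = r • (t - u) := by rw [smul_sub]; abel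
    rw [this, norm_smul, Real.norm_of_nonneg hr.le]
  have hptt : ∀ s : E (n + n), ‖s‖ ≤ 1 → μ⁻¹ ^ 2 * r ^ 2 * (2 * (1 + (μ ^ 2) ^ 2) * inner ℝ s w -
      2 * ((μ ^ 2) ^ 2 - 1)) ≤ inner ℝ (G (z + r • s) - G (z + r • rf w s)) (C - F) := by
    intro s hs
    have hs' : ‖rf w s‖ ≤ 1 := by rw [rf_norm hw]; exact hs
    obtain ⟨σ, hσ⟩ : ∃ σ : ℝ, σ = inner ℝ s w := ⟨_, rfl⟩
    have hx3 : ‖s + w‖ ≤ 3 := by
      have := norm_add_le s w
      linarith
    have hy3 : ‖s - w‖ ≤ 3 := by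
      have := norm_sub_le s w
      linarith
    have hx2 : ‖s + w‖ ^ 2 = ‖s‖ ^ 2 + 1 + 2 * σ := by
      rw [@norm_add_sq_real, hw, ← hσ]
      ring
    have hy2 : ‖s - w‖ ^ 2 = ‖s‖ ^ 2 + 1 - 2 * σ := by
      rw [@norm_sub_sq_real, hw, ← hσ]
      ring
    have hx' : ‖rf w s - w‖ = ‖s + w‖ := by
      have h1 : rf w s - w = rf w (s + w) := by
        have h2 := rf_smul_w hw 1
        rw [one_smul] at h2
        rw [rf_add, h2]
        abel
      rw [h1, rf_norm hw]
    have hy' : ‖rf w s + w‖ = ‖s - w‖ := by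
      have h1 : rf w s + w = rf w (s - w) := by
        have h2 := rf_smul_w hw (-1)
        rw [neg_one_smul, neg_neg] at h2
        rw [sub_eq_add_neg, rf_add, h2]
      rw [h1, rf_norm hw]
    have hq1 : ‖s‖ ^ 2 ≤ 1 := by nlinarith [norm_nonneg s]
    have k1 := (hb (z + r • s) (z + r • (-w))).1
    have k2 := (hb (z + r • rf w s) (z + r • w)).1
    have k3 := (hb (z + r • s) (z + r • w)).2
    have k4 := (hb (z + r • rf w s) (z + r • (-w))).2
    rw [hcmp] at k1 k2 k3 k4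
    rw [sub_neg_eq_add] at k1 k4
    rw [hx'] at k2
    rw [hy'] at k4
    have h4 := Pool.Agent.U987.BI.four (A := G (z + r • s)) (A' := G (z + r • rf w s)) (C := C)
      (F := F) (a := μ⁻¹) (h := r) (ρ := μ ^ 2) (η := 0) (x := ‖s + w‖) (y := ‖s - w‖)
      (q := ‖s‖ ^ 2) (σ := σ) (by positivity) hr hρ1 le_rfl zero_le_one (norm_nonneg _)
      (norm_nonneg _) hx3 hy3 hq1 hx2 hy2 (by rw [zero_mul, sub_zero, hF]; exact k1)
      (by rw [zero_mul, sub_zero, hC]; exact k2) (by rw [zero_mul, add_zero, hC]; exact k3)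
      (by rw [zero_mul, add_zero, hF]; exact k4)
    rw [← hσ]
    refine le_trans (le_of_eq ?_) h4
    ring
  have key := Pool.Agent.U987.BI.main_abs K hr0 (G := G) (z := z) (w := w) (e := C - F) (h := r)
    (M := μ⁻¹ ^ 2 * r ^ 2) (c₁ := 2 * (1 + (μ ^ 2) ^ 2))
    (B := 2 * ((μ ^ 2) ^ 2 - 1)) hr hw hGc.continuousOn (by positivity)
    (by nlinarith) hptt
  have hip := ip_eq K hc hcs φ r x v b
  have hrhs : ∫ s, K.g s * (inner ℝ s w * inner ℝ (G (z + r • s)) (C - F)) =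
      r * Near.ip (MD (et K c) φ r x v) b := by
    rw [hip, hLb, hw', hz, hG]
  rw [hrhs, ← inner_L, hLb] at key
  obtain ⟨t, ht⟩ : ∃ t : ℝ, t = Real.sqrt ((n + n : ℕ) : ℝ) / r₀ := ⟨_, rfl⟩
  rw [← ht] at key ⊢
  have hCF : ‖C - F‖ ≤ 2 * μ * r := by
    have h1 := (hb (z + r • w) (z + r • (-w))).2
    rw [hcmp, ← hC, ← hF, sub_neg_eq_add, ← two_smul ℝ w, norm_smul, hw, Real.norm_two,
      mul_one] at h1
    refine h1.trans (le_of_eq ?_)
    field_simp
  have h5 := real_inner_le_norm (L n (MD (et K c) φ r x v)) (C - F)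
  have h6 : r * (inner ℝ (L n (MD (et K c) φ r x v)) (C - F)) ≤
      r * (‖L n (MD (et K c) φ r x v)‖ * (2 * μ * r)) := by
    apply mul_le_mul_of_nonneg_left _ hr.le
    exact h5.trans (mul_le_mul_of_nonneg_left hCF (norm_nonneg _))
  have h7 := key.trans h6
  rw [div_le_iff₀ (by positivity)]
  have h8 : μ⁻¹ ^ 2 * r ^ 2 / 2 * (2 * (1 + (μ ^ 2) ^ 2) - 2 * ((μ ^ 2) ^ 2 - 1) * t) * μ ^ 2 =
      r ^ 2 * (1 + μ ^ 4 - (μ ^ 4 - 1) * t) := by
    field_simp
  have h9 := mul_le_mul_of_nonneg_right h7 (by positivity : 0 ≤ μ ^ 2)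
  rw [h8] at h9
  have h10 : r * (‖L n (MD (et K c) φ r x v)‖ * (2 * μ * r)) * μ ^ 2 =
      r ^ 2 * (‖L n (MD (et K c) φ r x v)‖ * (2 * μ ^ 3)) := by ring
  rw [h10] at h9
  exact le_of_mul_le_mul_left h9 (by positivity)

end Pool.Agent.U987.SY
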