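import Pool.Agent.W5h49.EC.Defs5
import Pool.Agent.W5h49.EC.Lin
import Pool.Agent.W5h49.EC.Var
import Pool.Agent.W5h49.EC.Near

/-!
# Averaged differentials which are bounded below do not reverse the symplectic form
-/

set_option autoImplicit false
set_option linter.unusedSectionVars false

open Set Filter Topology Metric Function MeasureTheory
open scoped ContDiff

noncomputable section

namespace Pool.Agent.U987.SY

open Pool.Agent.W71.EC Pool.Agent.W5h49.EC

variable {n : ℕ} {η : R2 n → ℝ}

theorem MD_add (hη : Moll η) (φ : SympCt n) (r : ℝ) (x u v : R2 n) :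
    MD η φ r x (u + v) = MD η φ r x u + MD η φ r x v := by
  unfold MD
  rw [← integral_add (Near.int_smul hη (Near.cont_arg φ r x u))
    (Near.int_smul hη (Near.cont_arg φ r x v))]
  congr 1
  funext y
  rw [← smul_add]
  unfold D
  rw [map_add]

theorem MD_smul (φ : SympCt n) (r : ℝ) (x : R2 n) (c : ℝ) (v : R2 n) :
    MD η φ r x (c • v) = c • MD η φ r x v := by
  unfold MD
  rw [← integral_smul]
  congr 1
  funext y
  rw [smul_comm c]
  unfold D
  rw [map_smul]

/-- the averaged differential as a linear map -/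
def MDl (hη : Moll η) (φ : SympCt n) (r : ℝ) (x : R2 n) : R2 n →ₗ[ℝ] R2 n where
  toFun := MD η φ r x
  map_add' := MD_add hη φ r x
  map_smul' := MD_smul φ r x

theorem int_sq_sub (hη : Moll η) (φ : SympCt n) (r : ℝ) (x v : R2 n) {μ : ℝ}
    (hup : ∀ x v, nsq (D φ x v) ≤ μ ^ 2 * nsq v) :
    ∫ y, η y * nsq (D φ (x - r • y) v - MD η φ r x v) ≤
      μ ^ 2 * nsq v - nsq (MD η φ r x v) := by
  obtain ⟨M, hM⟩ : ∃ M, M = MD η φ r x v := ⟨_, rfl⟩
  rw [← hM]
  have e1 : ∀ y, η y * nsq (D φ (x - r • y) v - M) =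
      η y * nsq (D φ (x - r • y) v) - 2 * (η y * Near.ip (D φ (x - r • y) v) M) + nsq M * η y := by
    intro y
    rw [Near.nsq_sub]
    ring
  have hcA : Continuous (fun y : R2 n => nsq (D φ (x - r • y) v)) :=
    Near.nsq_cont.comp (Near.cont_arg φ r x v)
  have hcB : Continuous (fun y : R2 n => Near.ip (D φ (x - r • y) v) M) :=
    (Near.ipL M).continuous.comp (Near.cont_arg φ r x v)
  have i1 := Near.int_mul hη hcA
  have i2 := Near.int_mul hη hcB
  have i3 : Integrable η := hη.smooth.continuous.integrable_of_hasCompactSupport hη.cpt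
  simp only [e1]
  have i12 : Integrable (fun y : R2 n => η y * nsq (D φ (x - r • y) v) -
      2 * (η y * Near.ip (D φ (x - r • y) v) M)) := i1.sub (i2.const_mul 2)
  have e5 : ∫ y, (η y * nsq (D φ (x - r • y) v) - 2 * (η y * Near.ip (D φ (x - r • y) v) M) +
      nsq M * η y) = (∫ y, η y * nsq (D φ (x - r • y) v)) - 2 * nsq M + nsq M := by
    rw [integral_add i12 (i3.const_mul _), integral_sub i1 (i2.const_mul 2),
      integral_const_mul, integral_const_mul, hη.integral, ← Near.ip_MD hη, ← hM, Near.ip_self,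
      mul_one]
  rw [e5]
  have h6 : ∫ y, η y * nsq (D φ (x - r • y) v) ≤ μ ^ 2 * nsq v := by
    calc ∫ y, η y * nsq (D φ (x - r • y) v) ≤ ∫ y, (μ ^ 2 * nsq v) * η y := by
          refine integral_mono i1 (i3.const_mul _) fun y => ?_
          have := hup (x - r • y) v
          simp only
          rw [mul_comm (μ ^ 2 * nsq v)]
          exact mul_le_mul_of_nonneg_left this (hη.nonneg y)
      _ = μ ^ 2 * nsq v := by rw [integral_const_mul, hη.integral, mul_one]
  linarith

/-- the variance identity -/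
theorem var_le (hη : Moll η) (φ : SympCt n) (r : ℝ) (x v : R2 n) :
    nsq v - omega (MD η φ r x v) (MD η φ r x (J v)) ≤
      1 / 2 * ((∫ y, η y * nsq (D φ (x - r • y) v - MD η φ r x v)) +
        ∫ y, η y * nsq (D φ (x - r • y) (J v) - MD η φ r x (J v))) := by
  have hηc : Continuous η := hη.smooth.continuous
  set M := MD η φ r x v with hM
  set N := MD η φ r x (J v) with hN
  have ca := continuous_D φ r x v
  have cb := continuous_D φ r x (J v)
  have hint : ∀ f : R2 n → ℝ, Continuous f → Integrable (fun y => η y * f y) := fun f hf =>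
    (hηc.mul hf).integrable_of_hasCompactSupport hη.cpt.mul_right
  have hinta : Integrable (fun y => η y • D φ (x - r • y) v) :=
    (hηc.smul ca).integrable_of_hasCompactSupport hη.cpt.smul_right
  have hintb : Integrable (fun y => η y • D φ (x - r • y) (J v)) :=
    (hηc.smul cb).integrable_of_hasCompactSupport hη.cpt.smul_right
  have h1 : ∫ y, η y * omega (D φ (x - r • y) v) N = omega M N := by
    have := (omL N).integral_comp_comm hinta
    simp only [omL_apply, omega_smul_left] at this
    exact this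
  have h2 : ∫ y, η y * omega M (D φ (x - r • y) (J v)) = omega M N := by
    have := (omR M).integral_comp_comm hintb
    simp only [omR_apply, omega_smul_right] at this
    exact this
  have h3 : ∀ y, η y * omega (D φ (x - r • y) v - M) (D φ (x - r • y) (J v) - N) =
      η y * nsq v - η y * omega (D φ (x - r • y) v) N - η y * omega M (D φ (x - r • y) (J v)) +
        η y * omega M N := by
    intro y
    have : omega (D φ (x - r • y) v) (D φ (x - r • y) (J v)) = nsq v := by
      unfold D
      rw [φ.symplectic, omJ]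
    rw [omega_sub_left, omega_sub_right, omega_sub_right, this]
    ring
  have h4 : ∫ y, η y * omega (D φ (x - r • y) v - M) (D φ (x - r • y) (J v) - N) =
      nsq v - omega M N := by
    simp_rw [h3]
    rw [integral_add, integral_sub, integral_sub, h1, h2, integral_mul_const, integral_mul_const,
      hη.integral]
    · ring
    · exact hint _ continuous_const
    · exact hint _ (continuous_omega ca continuous_const)
    · exact (hint _ continuous_const).sub (hint _ (continuous_omega ca continuous_const))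
    · exact hint _ (continuous_omega continuous_const cb)
    · exact ((hint _ continuous_const).sub (hint _ (continuous_omega ca continuous_const))).sub
        (hint _ (continuous_omega continuous_const cb))
    · exact hint _ continuous_const
  have ina : Integrable fun y => η y * nsq (D φ (x - r • y) v - M) :=
    hint _ (continuous_nsq (ca.sub continuous_const))
  have inb : Integrable fun y => η y * nsq (D φ (x - r • y) (J v) - N) :=
    hint _ (continuous_nsq (cb.sub continuous_const))
  have h5 : ∫ y, η y * omega (D φ (x - r • y) v - M) (D φ (x - r • y) (J v) - N) ≤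
      ∫ y, (1 / 2 : ℝ) * (η y * nsq (D φ (x - r • y) v - M) +
        η y * nsq (D φ (x - r • y) (J v) - N)) := by
    refine integral_mono (hint _ (continuous_omega (ca.sub continuous_const)
      (cb.sub continuous_const))) ((ina.add inb).const_mul _) fun y => ?_
    have := mul_le_mul_of_nonneg_left
      (omega_le (D φ (x - r • y) v - M) (D φ (x - r • y) (J v) - N)) (hη.nonneg y)
    calc _ ≤ _ := this
      _ = _ := by ring
  rw [integral_const_mul, integral_add ina inb, h4] at h5
  exact h5

/-- **No reversal.** -/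
theorem NR_of_low (hη : Moll η) (φ : SympCt n) (r : ℝ) (x : R2 n) {μ l : ℝ} (hl : 0 < l)
    (hup : ∀ x v, nsq (D φ x v) ≤ μ ^ 2 * nsq v)
    (hlow : ∀ v, l ^ 2 * nsq v ≤ nsq (MD η φ r x v)) (hc : μ ^ 2 < 1 + 2 * l ^ 2) :
    NR (MD η φ r x) := by
  rintro ⟨v, hv, c, hc0, hw⟩
  have hv0 := nsqPos hv
  have hl2 : 0 < l ^ 2 := by positivity
  have hinj : Function.Injective (MDl hη φ r x) := by
    rw [injective_iff_map_eq_zero]
    intro u hu
    by_contra h0
    have h1 := hlow u
    have h2 : MD η φ r x u = 0 := hu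
    rw [h2] at h1
    have h3 : nsq (0 : R2 n) = 0 := by simp [nsq]
    rw [h3] at h1
    have := mul_pos hl2 (nsqPos h0)
    linarith
  obtain ⟨w, hwu⟩ := (LinearMap.injective_iff_surjective.1 hinj) (J (MD η φ r x v))
  have hwu' : MD η φ r x w = J (MD η φ r x v) := hwu
  obtain ⟨u, hu⟩ : ∃ u, u = MD η φ r x v := ⟨_, rfl⟩
  rw [← hu] at hwu'
  have h1 := hw w
  rw [hwu', ← hu, omJ] at h1
  have h2 := hlow w
  rw [hwu', Near.nsq_J] at h2
  have h3 := hlow v
  rw [← hu] at h3
  have h4 : (omega v w) ^ 2 ≤ nsq v * nsq w := by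
    rw [Near.omega_eq, neg_sq]
    have := Near.cs v (J w)
    rwa [Near.nsq_J] at this
  have hu0 : 0 < nsq u := lt_of_lt_of_le (mul_pos hl2 hv0) h3
  have h5 : nsq u ^ 2 ≤ c ^ 2 * (nsq v * nsq w) := by
    rw [h1]
    calc (-c * omega v w) ^ 2 = c ^ 2 * (omega v w) ^ 2 := by ring
      _ ≤ _ := mul_le_mul_of_nonneg_left h4 (sq_nonneg c)
  have h6 : l ^ 2 * nsq u ^ 2 ≤ c ^ 2 * (nsq v * nsq u) := by
    calc l ^ 2 * nsq u ^ 2 ≤ l ^ 2 * (c ^ 2 * (nsq v * nsq w)) :=
          mul_le_mul_of_nonneg_left h5 hl2.le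
      _ = c ^ 2 * (nsq v * (l ^ 2 * nsq w)) := by ring
      _ ≤ c ^ 2 * (nsq v * nsq u) := by gcongr
  have h7 : l ^ 2 * nsq u ≤ c ^ 2 * nsq v := by
    have h8 : (l ^ 2 * nsq u) * nsq u ≤ (c ^ 2 * nsq v) * nsq u := by
      calc (l ^ 2 * nsq u) * nsq u = l ^ 2 * nsq u ^ 2 := by ring
        _ ≤ c ^ 2 * (nsq v * nsq u) := h6
        _ = (c ^ 2 * nsq v) * nsq u := by ring
    exact le_of_mul_le_mul_right h8 hu0
  have h9 : (l ^ 2) ^ 2 ≤ c ^ 2 := by
    have h10 : (l ^ 2) ^ 2 * nsq v ≤ c ^ 2 * nsq v := by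
      calc (l ^ 2) ^ 2 * nsq v = l ^ 2 * (l ^ 2 * nsq v) := by ring
        _ ≤ l ^ 2 * nsq u := mul_le_mul_of_nonneg_left h3 hl2.le
        _ ≤ c ^ 2 * nsq v := h7
    exact le_of_mul_le_mul_right h10 hv0
  have h10 : l ^ 2 ≤ c := (pow_le_pow_iff_left₀ hl2.le hc0 two_ne_zero).1 h9
  have h11 := var_le hη φ r x v
  have h12 := hw (J v)
  rw [omJ] at h12
  rw [h12] at h11
  have h13 := int_sq_sub hη φ r x v hup
  have h14 := int_sq_sub hη φ r x (J v) hup
  have h15 := hlow v
  have h16 := hlow (J v)
  rw [Near.nsq_J] at h14 h16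
  have h17 : (1 + l ^ 2) * nsq v ≤ (1 + c) * nsq v := by gcongr
  have h18 : μ ^ 2 * nsq v < (1 + 2 * l ^ 2) * nsq v := mul_lt_mul_of_pos_right hc hv0
  nlinarith

end Pool.Agent.U987.SY
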