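import Pool.Agent.W5h49.EC.KerND
import Pool.Agent.W5h49.EC.MainFam
import Pool.Agent.W5h49.EC.Diff
import Pool.Agent.U987.SY.A
import Pool.Agent.U987.SY.B

/-!
# Families of symplectomorphisms whose differentials are at most `μ`, with an explicit `μ`
-/

set_option autoImplicit false
set_option linter.unusedSectionVars false

open Set Filter Topology Metric Function MeasureTheory
open scoped ContDiff

noncomputable section

namespace Pool.Agent.U987.SY

open Pool.Agent.W71.EC Pool.Agent.W5h49.EC Pool.Agent.W5h83.HG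
open Pool.Agent.U211.BL (Ker exists_ker)

variable {n : ℕ} {r₀ : ℝ}

/-- the lower bound in all directions -/
theorem low_all (K : Ker (n + n) r₀) (hr0 : 0 < r₀) {c : ℝ} (hc : 0 < c)
    (hcs : ∀ f : Pool.Agent.Y522.E (n + n) → ℝ, ∫ y : R2 n, f (L n y) = c * ∫ s, f s)
    (φ : SympCt n) {μ : ℝ}
    (hμ : 1 ≤ μ) (h : ∀ x v, nsq (D φ x v) ≤ μ ^ 2 * nsq v) {l : ℝ} (hl0 : 0 ≤ l)
    (hl : l ≤ (1 + μ ^ 4 - (μ ^ 4 - 1) * (Real.sqrt ((n + n : ℕ) : ℝ) / r₀)) / (2 * μ ^ 3))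
    {r : ℝ} (hr : 0 < r) (x v : R2 n) :
    l ^ 2 * nsq v ≤ nsq (MD (et K c) φ r x v) := by
  rcases eq_or_ne v 0 with hv | hv
  · have h1 : nsq v = 0 := by rw [hv]; simp [nsq]
    rw [h1, mul_zero]
    exact nsqNN _
  · have hv0 := nsqPos hv
    set k := Real.sqrt (nsq v) with hk
    have hk0 : 0 < k := Real.sqrt_pos.2 hv0
    have hk2 : k ^ 2 = nsq v := Real.sq_sqrt hv0.le
    obtain ⟨u, hu⟩ : ∃ u, u = k⁻¹ • v := ⟨_, rfl⟩
    have huv : v = k • u := by
      rw [hu, smul_smul, mul_inv_cancel₀ hk0.ne', one_smul]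
    have hu1 : nsq u = 1 := by
      rw [hu, Near.nsq_smul, ← hk2]
      field_simp
    have h1 := hl.trans (low K hr0 hc hcs φ hμ h hr x u hu1)
    have h2 : l ^ 2 ≤ nsq (MD (et K c) φ r x u) := by
      rw [← norm_L]
      exact pow_le_pow_left₀ hl0 h1 2
    rw [← hk2, huv, MD_smul, Near.nsq_smul]
    nlinarith [pow_pos hk0 2]

/-- at large scales the mollified differentials are close to the identity -/
theorem far {η : R2 n → ℝ} (hη : Moll η) (hs : Function.support η ⊆ Metric.ball 0 1) {C : Type}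
    [TopologicalSpace C] [CompactSpace C] (f : C(C, SympCt n)) :
    ∃ R : ℝ, 0 < R ∧ ∀ (p : C) (x v : R2 n), nsq (MD η (f p) R x v - v) ≤ 1 / 16 * nsq v := by
  obtain ⟨C₀, hC0, hdiff⟩ := diff n η hη hs
  obtain ⟨M, hM0, hM⟩ := disp_bound f
  obtain ⟨R, hR⟩ : ∃ R : ℝ, R = 4 * C₀ * M + 1 := ⟨_, rfl⟩
  have hR0 : 0 < R := by rw [hR]; positivity
  refine ⟨R, hR0, fun p x v => ?_⟩
  have h1 := hdiff (f p) one R hR0 x v
  rw [MD_one hη] at h1
  refine h1.trans (mul_le_mul_of_nonneg_right ?_ (nsqNN v))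
  have hcont : Continuous (fun y => ‖(f p).toEquiv y - (one : SympCt n).toEquiv y‖) :=
    ((f p).smooth.continuous.sub one.smooth.continuous).norm
  have h2 : ⨍ y in Metric.ball x R, ‖(f p).toEquiv y - (one : SympCt n).toEquiv y‖ ≤ M :=
    avg_le hcont hM0 (fun y => hM p y) x R
  have h3 : 0 ≤ ⨍ y in Metric.ball x R, ‖(f p).toEquiv y - (one : SympCt n).toEquiv y‖ := by
    rw [setAverage_eq]
    exact smul_nonneg (by positivity) (integral_nonneg fun y => norm_nonneg _)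
  have h4 : C₀ / R * ⨍ y in Metric.ball x R, ‖(f p).toEquiv y - (one : SympCt n).toEquiv y‖ ≤
      1 / 4 := by
    calc _ ≤ C₀ / R * M := mul_le_mul_of_nonneg_left h2 (by positivity)
      _ ≤ 1 / 4 := by
          rw [div_mul_eq_mul_div, div_le_iff₀ hR0, hR]
          nlinarith
  have h5 : 0 ≤ C₀ / R * ⨍ y in Metric.ball x R, ‖(f p).toEquiv y - (one : SympCt n).toEquiv y‖ :=
    mul_nonneg (by positivity) h3
  calc _ ≤ (1 / 4 : ℝ) ^ 2 := pow_le_pow_left₀ h5 h4 2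
    _ = 1 / 16 := by norm_num

/-- no reversal at any positive scale -/
theorem null_of_NR {η : R2 n → ℝ} (hη : Moll η) (hs : Function.support η ⊆ Metric.ball 0 1)
    {C : Type} [TopologicalSpace C] [CompactSpace C] (f : C(C, SympCt n))
    (hf : ∀ p r, 0 < r → ∀ x, NR (MD η (f p) r x)) :
    f.HomotopicRel (ContinuousMap.const C one) {p | f p = one} := by
  obtain ⟨R, hR, hfar⟩ := far hη hs f
  have hf0 : ∀ p r, 0 ≤ r → ∀ x, NR (MD η (f p) r x) := by
    intro p r hr x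
    rcases eq_or_lt_of_le hr with h | h
    · refine NR_of_tame fun v hv => ?_
      have e : ∀ w, MD η (f p) r x w = D (f p) x w := by
        intro w
        rw [← h]
        unfold MD
        simp only [zero_smul, sub_zero]
        rw [integral_smul_const, hη.integral, one_smul]
      rw [e, e]
      have h2 : omega (D (f p) x v) (D (f p) x (J v)) = omega v (J v) := (f p).symplectic x v (J v)
      rw [h2, omJ]
      exact nsqPos hv
    · exact hf p r h x
  have key := kernel_nd η hη C f (ContinuousMap.const C one) (ContinuousMap.const C R)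
    (fun _ => hR.le) (fun p hp => absurd hp hR.ne')
    (fun p r h _ x => hf0 p r h x) ?_ ?_
  · exact rel_mono key fun p hp => Or.inr ⟨hp, rfl⟩
  · intro p r _ _ x
    refine NR_of_tame fun v hv => ?_
    change 0 < omega (MD η one r x v) (MD η one r x (J v))
    rw [MD_one hη, MD_one hη, omJ]
    exact nsqPos hv
  · intro p t ht0 ht1 x
    refine NR_of_tame fun v hv => ?_
    change 0 < omega ((1 - t) • MD η (f p) R x v + t • MD η one R x v)
      ((1 - t) • MD η (f p) R x (J v) + t • MD η one R x (J v))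
    rw [MD_one hη, MD_one hη]
    have h1 := hfar p x v
    have h2 := hfar p x (J v)
    rw [Near.nsq_J] at h2
    have h3 := near_id_tame h1 h2
    have h4 : (1 - 9 / 16 : ℝ) * nsq v ≤ omega v (J v) := by
      rw [omJ]
      linarith [nsqPos hv]
    exact tame_aux (θ := 9 / 16) (κ := 1 / 16) (c := t) (a := MD η (f p) R x v)
      (a' := MD η (f p) R x (J v)) (b := v) (b' := J v) (v := v) (by norm_num) (by norm_num)
      ht0 ht1 hv h3 h4 (Or.inr (Or.inr ⟨h1, h2⟩))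

/-- **Families of symplectomorphisms with small differentials.** -/
theorem null {μ : ℝ} (hμ : 1 ≤ μ)
    (h1 : (μ ^ 4 - 1) * Real.sqrt ((n + n : ℕ) : ℝ) < 1 + μ ^ 4)
    (h2 : 2 * μ ^ 6 * (μ ^ 2 - 1) <
      (1 + μ ^ 4 - (μ ^ 4 - 1) * Real.sqrt ((n + n : ℕ) : ℝ)) ^ 2) {C : Type}
    [TopologicalSpace C] [CompactSpace C] (f : C(C, SympCt n))
    (h : ∀ p x v, nsq (D (f p) x v) ≤ μ ^ 2 * nsq v) :
    f.HomotopicRel (ContinuousMap.const C one) {p | f p = one} := by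
  have hμ0 : 0 < μ := by linarith
  obtain ⟨q, hq⟩ : ∃ q : ℝ → ℝ, q = fun t => 1 + μ ^ 4 - (μ ^ 4 - 1) *
    (Real.sqrt ((n + n : ℕ) : ℝ) / (1 - t)) := ⟨_, rfl⟩
  have hqc : ContinuousAt q 0 := by
    rw [hq]
    apply ContinuousAt.sub continuousAt_const
    apply ContinuousAt.mul continuousAt_const
    apply ContinuousAt.div continuousAt_const (by fun_prop)
    norm_num
  have hq0 : q 0 = 1 + μ ^ 4 - (μ ^ 4 - 1) * Real.sqrt ((n + n : ℕ) : ℝ) := by
    rw [hq]
    simp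
  have e1 : ∀ᶠ t in 𝓝 (0 : ℝ), 0 < q t := by
    apply hqc.eventually_const_lt
    rw [hq0]
    linarith
  have e2 : ∀ᶠ t in 𝓝 (0 : ℝ), 2 * μ ^ 6 * (μ ^ 2 - 1) < q t ^ 2 := by
    apply (hqc.pow 2).eventually_const_lt
    show 2 * μ ^ 6 * (μ ^ 2 - 1) < q 0 ^ 2
    rw [hq0]
    exact h2
  obtain ⟨t, ⟨ht1, ht2⟩, ht3, ht4⟩ : ∃ t, (0 < q t ∧ 2 * μ ^ 6 * (μ ^ 2 - 1) < q t ^ 2) ∧
      0 < t ∧ t < 1 := by
    have e3 := (e1.and e2).filter_mono (nhdsWithin_le_nhds (s := Ioi 0))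
    have e4 : ∀ᶠ t in 𝓝[>] (0 : ℝ), 0 < t ∧ t < 1 := Ioo_mem_nhdsGT one_pos
    exact (e3.and e4).exists
  obtain ⟨K⟩ := exists_ker (n + n) (r := 1 - t) (by linarith) (by linarith)
  obtain ⟨c, hc, hcs⟩ := exists_scale n
  obtain ⟨l, hl⟩ : ∃ l, l = q t / (2 * μ ^ 3) := ⟨_, rfl⟩
  have hl0 : 0 < l := by rw [hl]; positivity
  have hlc : μ ^ 2 < 1 + 2 * l ^ 2 := by
    have h3 : 2 * l ^ 2 = q t ^ 2 / (2 * μ ^ 6) := by
      rw [hl]
      field_simp
    rw [h3]
    have h4 : μ ^ 2 - 1 < q t ^ 2 / (2 * μ ^ 6) := by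
      rw [lt_div_iff₀ (by positivity)]
      linarith
    linarith
  have hlq : l = (1 + μ ^ 4 - (μ ^ 4 - 1) * (Real.sqrt ((n + n : ℕ) : ℝ) / (1 - t))) /
      (2 * μ ^ 3) := by
    rw [hl, hq]
  refine null_of_NR (et_moll K hc hcs) (et_supp K c) f fun p r hr x => ?_
  exact NR_of_low (et_moll K hc hcs) (f p) r x hl0 (h p)
    (fun v => low_all K (by linarith) hc hcs (f p) hμ (h p) hl0.le hlq.le hr x v) hlc

/-- **Two families.** -/
theorem two {μ : ℝ} (hμ : 1 ≤ μ)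
    (h1 : (μ ^ 4 - 1) * Real.sqrt ((n + n : ℕ) : ℝ) < 1 + μ ^ 4)
    (h2 : 2 * μ ^ 6 * (μ ^ 2 - 1) <
      (1 + μ ^ 4 - (μ ^ 4 - 1) * Real.sqrt ((n + n : ℕ) : ℝ)) ^ 2) {C : Type}
    [TopologicalSpace C] [CompactSpace C] (f g : C(C, SympCt n))
    (h : ∀ p x v, nsq (D (f p) x v) ≤ μ ^ 2 * nsq (D (g p) x v)) :
    f.HomotopicRel g {p | f p = g p} := by
  obtain ⟨χ, hχ⟩ : ∃ χ : C(C, SympCt n), χ = mulC f (invC g) := ⟨_, rfl⟩
  have hχ1 : ∀ p y w, nsq (D (χ p) y w) ≤ μ ^ 2 * nsq w := by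
    intro p y w
    rw [hχ]
    obtain ⟨x, rfl⟩ := (g p).toEquiv.surjective y
    change nsq (fderiv ℝ (comp (f p) (inv (g p))).toEquiv _ w) ≤ _
    rw [comp_fderiv]
    have e5 := inv_left (g p).smooth (g p).smooth_symm ((g p).toEquiv x) w
    change nsq (fderiv ℝ (f p).toEquiv ((g p).toEquiv.symm ((g p).toEquiv x))
      (fderiv ℝ (g p).toEquiv.symm ((g p).toEquiv x) w)) ≤ _
    rw [Equiv.symm_apply_apply] at e5 ⊢
    have h2 := h p x (fderiv ℝ (g p).toEquiv.symm ((g p).toEquiv x) w)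
    unfold D at h2
    rwa [e5] at h2
  have h3 : χ.HomotopicRel (cone C n) {p | f p = g p} := by
    refine rel_mono (null hμ h1 h2 χ hχ1) fun p hp => ?_
    rw [hχ]
    change comp (f p) (inv (g p)) = one
    have hp' : f p = g p := hp
    rw [hp']
    exact comp_inv_self (g p)
  have h4 := rel_mul_right h3 g
  have h5 : mulC χ g = f := by
    rw [hχ]
    ext1 p
    exact comp_inv_comp (f p) (g p)
  have h6 : mulC (cone C n) g = g := by
    ext1 p
    exact one_comp (g p)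
  rwa [h5, h6] at h4

end Pool.Agent.U987.SY
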