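import Pool.Agent.U987.SY.C

/-!
# Explicit values
-/

set_option autoImplicit false

noncomputable section

namespace Pool.Agent.U987.SY

/-- the condition on `μ` -/
theorem adm_general (n : ℕ) (hn : 1 ≤ n) {μ : ℝ} (h1 : 1 ≤ μ)
    (h2 : μ ^ 2 ≤ 1 + 1 / (2 * Real.sqrt (2 * (n : ℝ)))) :
    (μ ^ 4 - 1) * Real.sqrt (2 * (n : ℝ)) < 1 + μ ^ 4 ∧
    2 * μ ^ 6 * (μ ^ 2 - 1) < (1 + μ ^ 4 - (μ ^ 4 - 1) * Real.sqrt (2 * (n : ℝ))) ^ 2 := by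
  have hn' : (1 : ℝ) ≤ n := by exact_mod_cast hn
  obtain ⟨s, hs⟩ : ∃ s, s = Real.sqrt (2 * (n : ℝ)) := ⟨_, rfl⟩
  have hs2 : s ^ 2 = 2 * (n : ℝ) := by
    rw [hs]
    exact Real.sq_sqrt (by positivity)
  have hs0 : 0 ≤ s := hs ▸ Real.sqrt_nonneg _
  have hs1 : 1.41 ≤ s := by
    by_contra h
    push Not at h
    nlinarith
  rw [← hs] at h2 ⊢
  obtain ⟨e, he⟩ : ∃ e, e = μ ^ 2 - 1 := ⟨_, rfl⟩
  have he0 : 0 ≤ e := by rw [he]; nlinarith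
  have hes : e * s ≤ 1 / 2 := by
    have h3 : e ≤ 1 / (2 * s) := by rw [he]; linarith
    have h4 : 0 < 2 * s := by linarith
    rw [le_div_iff₀ h4] at h3
    linarith
  have he1 : e ≤ 0.36 := by
    by_contra h
    push Not at h
    nlinarith
  have h4 : μ ^ 4 = (1 + e) ^ 2 := by rw [he]; ring
  have h6 : μ ^ 6 = (1 + e) ^ 3 := by rw [he]; ring
  have h22 : μ ^ 2 = 1 + e := by rw [he]; ring
  rw [h4, h6, h22]
  have k1 : ((1 + e) ^ 2 - 1) * s ≤ 1 + e / 2 := by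
    have : ((1 + e) ^ 2 - 1) * s = (2 + e) * (e * s) := by ring
    rw [this]
    nlinarith
  constructor
  · nlinarith
  · have k2 : 1 + 3 / 2 * e + e ^ 2 ≤ 1 + (1 + e) ^ 2 - ((1 + e) ^ 2 - 1) * s := by nlinarith
    have k3 : (1 + 3 / 2 * e + e ^ 2) ^ 2 ≤
        (1 + (1 + e) ^ 2 - ((1 + e) ^ 2 - 1) * s) ^ 2 :=
      pow_le_pow_left₀ (by positivity) k2 2
    refine lt_of_lt_of_le ?_ k3
    have k4 : e ^ 2 ≤ 0.36 * e := by nlinarith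
    have k5 : e ^ 3 ≤ 0.36 * e ^ 2 := by nlinarith [sq_nonneg e]
    have k6 : e ^ 4 ≤ 0.36 * e ^ 3 := by nlinarith [pow_nonneg he0 3]
    nlinarith

/-- dimension six -/
theorem adm_six : ((1.13 : ℝ) ^ 4 - 1) * Real.sqrt (2 * ((3 : ℕ) : ℝ)) < 1 + (1.13 : ℝ) ^ 4 ∧
    2 * (1.13 : ℝ) ^ 6 * ((1.13 : ℝ) ^ 2 - 1) <
      (1 + (1.13 : ℝ) ^ 4 - ((1.13 : ℝ) ^ 4 - 1) * Real.sqrt (2 * ((3 : ℕ) : ℝ))) ^ 2 := by
  obtain ⟨s, hs⟩ : ∃ s, s = Real.sqrt (2 * ((3 : ℕ) : ℝ)) := ⟨_, rfl⟩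
  have hs2 : s ^ 2 = 6 := by
    rw [hs, Real.sq_sqrt (by positivity)]
    norm_num
  have hs0 : 0 ≤ s := hs ▸ Real.sqrt_nonneg _
  have hs1 : s ≤ 2.4495 := by
    by_contra h
    push Not at h
    nlinarith
  rw [← hs]
  constructor
  · norm_num
    nlinarith
  · have k1 : (1.086 : ℝ) ≤ 1 + (1.13 : ℝ) ^ 4 - ((1.13 : ℝ) ^ 4 - 1) * s := by
      norm_num
      nlinarith
    have k2 : (1.086 : ℝ) ^ 2 ≤ (1 + (1.13 : ℝ) ^ 4 - ((1.13 : ℝ) ^ 4 - 1) * s) ^ 2 :=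
      pow_le_pow_left₀ (by norm_num) k1 2
    refine lt_of_lt_of_le ?_ k2
    norm_num

end Pool.Agent.U987.SY
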