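import Pool.Agent.W71.EC.Crit
import Pool.Agent.W5h83.HG.Prod
import Pool.Agent.U987.BI.Euc
import Pool.Agent.U987.SY.A

/-!
# Smooth isotopies between compactly supported symplectomorphisms
-/

set_option autoImplicit false
set_option linter.unusedSectionVars false

open Set Filter Topology Metric Function MeasureTheory
open scoped Manifold ContDiff

noncomputable section

namespace Pool.Agent.U987.SY

open Pool.Agent.W71.EC Pool.Agent.W5h49.EC Pool.Agent.Y522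

variable {n : ℕ}

theorem ld_of_symp (χ : SympCt n) (x : E (n + n)) :
    LD (n + n) (fun s => L n (χ.toEquiv ((L n).symm s))) x := by
  let Φ : E (n + n) ≃ₘ^∞⟮𝓡 (n + n), 𝓡 (n + n)⟯ E (n + n) :=
    { toEquiv := ((L n).symm.toEquiv.trans χ.toEquiv).trans (L n).toEquiv
      contMDiff_toFun := by
        rw [contMDiff_iff_contDiff]
        exact (L n).contDiff.comp (χ.smooth.comp (L n).symm.contDiff)
      contMDiff_invFun := by
        rw [contMDiff_iff_contDiff]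
        exact (L n).contDiff.comp (χ.smooth_symm.comp (L n).symm.contDiff) }
  exact Φ.isLocalDiffeomorph x

/-- **Smooth isotopies.** -/
theorem smooth_iso {μ : ℝ} (hμ : 1 ≤ μ)
    (h1 : (μ ^ 4 - 1) * Real.sqrt ((n + n : ℕ) : ℝ) < 1 + μ ^ 4) (φ ψ : SympCt n)
    (h : ∀ x v, nsq (D φ x v) ≤ μ ^ 2 * nsq (D ψ x v)) :
    ∃ F : ℝ × R2 n → R2 n, ContDiff ℝ ∞ F ∧
      (∀ t, ∃ Φ : R2 n ≃ R2 n, ContDiff ℝ ∞ Φ ∧ ContDiff ℝ ∞ Φ.symm ∧ ∀ x, Φ x = F (t, x)) ∧
      (∀ x, F (0, x) = ψ.toEquiv x) ∧ (∀ x, F (1, x) = φ.toEquiv x) ∧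
      ∃ K : Set (R2 n), IsCompact K ∧ ∀ t x, x ∉ K → F (t, x) = x := by
  obtain ⟨χ, hχ⟩ : ∃ χ : SympCt n, χ = comp φ (inv ψ) := ⟨_, rfl⟩
  have hχ1 : ∀ y w, nsq (D χ y w) ≤ μ ^ 2 * nsq w := by
    intro y w
    rw [hχ]
    obtain ⟨x, rfl⟩ := ψ.toEquiv.surjective y
    change nsq (fderiv ℝ (comp φ (inv ψ)).toEquiv _ w) ≤ _
    rw [comp_fderiv]
    have e5 := inv_left ψ.smooth ψ.smooth_symm (ψ.toEquiv x) w
    change nsq (fderiv ℝ φ.toEquiv (ψ.toEquiv.symm (ψ.toEquiv x))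
      (fderiv ℝ ψ.toEquiv.symm (ψ.toEquiv x) w)) ≤ _
    rw [Equiv.symm_apply_apply] at e5 ⊢
    have h2 := h x (fderiv ℝ ψ.toEquiv.symm (ψ.toEquiv x) w)
    unfold D at h2
    rwa [e5] at h2
  have hμ0 : 0 < μ := by linarith
  obtain ⟨K₁, hK₁, hK₁'⟩ := χ.compact_support
  obtain ⟨K₂, hK₂, hK₂'⟩ := ψ.compact_support
  obtain ⟨R, hR⟩ := (hK₁.image (L n).continuous).exists_bound_of_continuousOn
    (f := fun y : E (n + n) => y) continuousOn_id
  have hsupp : ∀ s : E (n + n), R + 1 ≤ ‖s‖ → L n (χ.toEquiv ((L n).symm s)) = s := by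
    intro s hs
    have h2 : (L n).symm s ∉ K₁ := by
      intro hmem
      have h3 := hR s ⟨(L n).symm s, hmem, (L n).apply_symm_apply s⟩
      linarith
    rw [hK₁' _ h2, (L n).apply_symm_apply]
  have hb := fun p q => bilip hμ χ hχ1 p q
  obtain ⟨F, hF, hFt, hF0, hF1, R', hR'⟩ := Pool.Agent.U987.BI.isotopy_euc (n := n + n)
    (a := μ⁻¹) (ρ := μ ^ 2) (by positivity) (one_le_pow₀ hμ)
    (by
      have e : ((μ ^ 2) ^ 2 - 1) = μ ^ 4 - 1 := by ring
      have e' : 1 + (μ ^ 2) ^ 2 = 1 + μ ^ 4 := by ring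
      rw [e, e']
      exact h1)
    (φ := fun s => L n (χ.toEquiv ((L n).symm s))) (ld_of_symp χ) hsupp
    (fun p q => (hb p q).1) (fun p q => (hb p q).2)
  refine ⟨fun z => (L n).symm (F (z.1, L n (ψ.toEquiv z.2))), ?_, ?_, ?_, ?_, ?_⟩
  · exact (L n).symm.contDiff.comp (hF.comp (contDiff_fst.prodMk
      ((L n).contDiff.comp (ψ.smooth.comp contDiff_snd))))
  · intro t
    have hl : IsLocalDiffeomorph (𝓡 (n + n)) (𝓡 (n + n)) ∞ (fun x => F (t, x)) :=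
      fun x => (hFt t).2 x
    obtain ⟨Ψ, hΨ⟩ : ∃ Ψ : E (n + n) ≃ₘ^∞⟮𝓡 (n + n), 𝓡 (n + n)⟯ E (n + n),
        ∀ x, Ψ x = F (t, x) := ⟨hl.diffeomorphOfBijective (hFt t).1, fun x => rfl⟩
    refine ⟨((ψ.toEquiv.trans (L n).toEquiv).trans Ψ.toEquiv).trans (L n).symm.toEquiv, ?_, ?_, ?_⟩
    · exact (L n).symm.contDiff.comp (Ψ.contDiff.comp ((L n).contDiff.comp ψ.smooth))
    · exact ψ.smooth_symm.comp ((L n).symm.contDiff.comp (Ψ.symm.contDiff.comp (L n).contDiff))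
    · intro x
      show (L n).symm (Ψ (L n (ψ.toEquiv x))) = _
      rw [hΨ]
  · intro x
    show (L n).symm (F (0, L n (ψ.toEquiv x))) = _
    rw [hF0, (L n).symm_apply_apply]
  · intro x
    show (L n).symm (F (1, L n (ψ.toEquiv x))) = _
    rw [hF1, (L n).symm_apply_apply, (L n).symm_apply_apply, hχ]
    show φ.toEquiv (ψ.toEquiv.symm (ψ.toEquiv x)) = φ.toEquiv x
    rw [Equiv.symm_apply_apply]
  · refine ⟨K₂ ∪ (L n).symm '' closedBall 0 R', hK₂.union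
      ((isCompact_closedBall _ _).image (L n).symm.continuous), fun t x hx => ?_⟩
    show (L n).symm (F (t, L n (ψ.toEquiv x))) = x
    rw [hK₂' x fun h => hx (Or.inl h)]
    have h3 : R' ≤ ‖L n x‖ := by
      by_contra h4
      push Not at h4
      apply hx
      refine Or.inr ⟨L n x, ?_, (L n).symm_apply_apply x⟩
      rw [mem_closedBall_zero_iff]
      exact h4.le
    rw [hR' t _ h3, (L n).symm_apply_apply]

end Pool.Agent.U987.SY
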